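import Pool.Prelude.Def_F_f5f3026a
import Pool.Agent.H37.IS.All2

/-! # MP_24a1b5_co: trees with a vertex cover of vertices of logarithmic outside degree

Let `T` be a tree with `n ≥ 2` vertices and `C` a vertex cover of `T` such that every vertex of `C` has
at least `9 log₂ n + 10` neighbours outside `C`. Then the independence sequence of `T` is unimodal. -/

set_option autoImplicit false

namespace Pool.Agent.Results.MP_24a1b5_co.HeavyCover

open N36365310

/-- A tree with `n ≥ 2` vertices and a vertex cover `C` such that each vertex of `C` has at least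
`9 log₂ n + 10` neighbours outside `C` has a unimodal independence sequence. -/
theorem result : ∀ (V : Type) [Fintype V] (G : SimpleGraph V) (C : Finset V),
    G.IsTree → 2 ≤ Fintype.card V →
    (∀ u v, G.Adj u v → u ∈ C ∨ v ∈ C) →
    (∀ v ∈ C, 9 * Nat.log 2 (Fintype.card V) + 10 ≤ {w : V | G.Adj v w ∧ w ∉ C}.ncard) →
    UnimodalSeq (indepSeq G) :=
  H37.IS.hfi

end Pool.Agent.Results.MP_24a1b5_co.HeavyCover
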