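import Mathlib
import Pool.Agent.H28.UV.UpForest

/-!
# The independence sequence of a forest increases up to the independence number minus `n / 2`

Let `G` be a forest with `n` vertices and `J` an independent set. Then `i_k ≤ i_(k+1)` whenever
`2 k + 1 + n ≤ 2 |J|`.

Proof. Let `C` be the complement of `J`, a vertex cover. Let `S` be an independent set with `k`
elements, `t = |S ∩ C|`. Vertices of `J` which have two or more neighbours in `S` have them in
`S ∩ C`; as `G` is a forest, there are at most `t` such vertices. So at least `|J| - k - f(S)`
vertices of `J` extend `S`, where `f(S)` is the number of the vertices of `J` with exactly one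
neighbour in `S`. If `u` is such a vertex and `v` its neighbour in `S` then `S - v + u` is again
independent, and together with `v` it determines `S` and `u`, because `u` is the only neighbour of
`v` in it. So the sum of `f(S)` over all `S` is at most `|C| i_k`, and
`(k + 1) i_(k+1) ≥ (|J| - k - |C|) i_k ≥ (k + 1) i_k`.
-/

namespace Pool.Agent.Results.MP_24a1b5_co.IncreasingPart

open N36365310

/-- Let `G` be a finite forest (for example a tree) with `n` vertices and `J` an independent set of
`G`. If `2 k + 1 + n ≤ 2 |J|`, then `i_k(G) ≤ i_(k+1)(G)`. -/
theorem result : ∀ (V : Type) [Fintype V] (G : SimpleGraph V), G.IsAcyclic →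
    ∀ J : Finset V, G.IsIndepSet (J : Set V) →
      ∀ k : ℕ, 2 * k + 1 + Fintype.card V ≤ 2 * J.card → indepSeq G k ≤ indepSeq G (k + 1) :=
  fun _ _ G hG J hJ k hk => Pool.Agent.H28.UV.up_forest' G hG J hJ k hk

end Pool.Agent.Results.MP_24a1b5_co.IncreasingPart
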