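import Pool.Prelude.Def_F_f5f3026a
import Pool.Agent.H37.IS.All3

/-! # MP_24a1b5_co: trees with many leaves at every non-leaf vertex

Let `K ≥ 100` and let `T` be a tree with at least three vertices in which every non-leaf vertex has at
least `K` leaf neighbours, and at most `2 ^ (K / 2)` times as many non-leaf neighbours as leaf
neighbours. Then the independence sequence of `T` is unimodal. -/

set_option autoImplicit false

namespace Pool.Agent.Results.MP_24a1b5_co.ManyLeaves

open N36365310

/-- Let `K ≥ 100` and let `G` be a tree with at least three vertices in which every vertex of degree at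
least two has at least `K` neighbours of degree one, and at most `2 ^ (K / 2)` times as many neighbours
of degree at least two. Then the independence sequence of `G` is unimodal. -/
theorem result : ∀ (V : Type) [Fintype V] (G : SimpleGraph V) (K : ℕ),
    G.IsTree → 3 ≤ Fintype.card V → 100 ≤ K →
    (∀ v, 2 ≤ (G.neighborSet v).ncard →
      K ≤ {w | G.Adj v w ∧ (G.neighborSet w).ncard = 1}.ncard ∧
      {w | G.Adj v w ∧ 2 ≤ (G.neighborSet w).ncard}.ncard ≤
        2 ^ (K / 2) * {w | G.Adj v w ∧ (G.neighborSet w).ncard = 1}.ncard) →
    UnimodalSeq (indepSeq G) :=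
  H37.IS.fi3

end Pool.Agent.Results.MP_24a1b5_co.ManyLeaves
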