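import Pool.Prelude.Def_F_f5f3026a
import Pool.Agent.H37.IS.All

/-! # MP_24a1b5_co: graphs with a small vertex cover have unimodal independence sequences

Let `G` be a graph with `n` vertices and a vertex cover `C`. If `(10 |C| + 12 log₂ n + 12) ^ 2 ≤ n`
(so `|C|` may be almost `√n / 10`), then the independence sequence of `G` is unimodal. For a tree with
at least three vertices, the non-leaf vertices form a vertex cover. -/

set_option autoImplicit false

namespace Pool.Agent.Results.MP_24a1b5_co.SmallVertexCover

open N36365310

/-- A graph with `n` vertices and a vertex cover `C` with `(10 |C| + 12 log₂ n + 12) ^ 2 ≤ n` has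
a unimodal independence sequence. -/
theorem result : ∀ (V : Type) [Fintype V] (G : SimpleGraph V) (C : Finset V),
    (∀ u v, G.Adj u v → u ∈ C ∨ v ∈ C) →
    (10 * C.card + 12 * Nat.log 2 (Fintype.card V) + 12) ^ 2 ≤ Fintype.card V →
    UnimodalSeq (indepSeq G) :=
  H37.IS.fin

end Pool.Agent.Results.MP_24a1b5_co.SmallVertexCover
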